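import Mathlib
import Pool.Agent.Q234.HF.Core
import Pool.Agent.Q234.HF.Exp

/-!
# `1/2`-flow-pairs: reduction to 3-edge-connected cubic graphs of girth at least five

Every bridgeless graph has a `1/2`-flow-pair if and only if every 3-edge-connected cubic graph of
girth at least five has one.

Proof.  A `1/2`-flow-pair is the same as a flow with values in `ℤ₂ × ℤ` all of whose values are
admissible (the first coordinate modulo two, Eulerian orientations).  Replacing every vertex by a
circuit one gets degree at most three.  If there is a cut with two edges `e₁ = xy` and `e₂`, then
`e₁` is contracted and expanded in another way, which lowers the number of cuts with two edges; the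
value at `e₁` is plus or minus the value at `e₂`.  If there is none, then an edge of a circuit of
length two or three, or one of the two pairs of opposite edges of a circuit of length four, is
deleted; no bridge arises (for the circuits of length four by uncrossing two cuts with three
edges).  The remaining one or two edges of the circuit have admissible values `β`, `γ`, and for all
admissible `β`, `γ` there is an admissible `c` such that `β + c`, `γ + c` are admissible: `c` is
added along the circuit.
-/

set_option autoImplicit false

namespace Pool.Agent.Results.MP_e59a69_co.CubicGirthFive
open Pool.Agent.H160R2.HF Pool.Agent.Q234.HF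

/-- Every bridgeless graph has a `1/2`-flow-pair if and only if every 3-edge-connected cubic graph
of girth at least five has one. -/
theorem result :
    (∀ (V E : Type) [Fintype V] [Fintype E] [DecidableEq V] [DecidableEq E] (G : OrGraph V E),
      G.Bridgeless → ∃ φ₂ φ₄ : E → ℤ, G.IsHalfFlowPair φ₂ φ₄) ↔
    (∀ (V E : Type) [Fintype V] [Fintype E] [DecidableEq V] [DecidableEq E] (G : OrGraph V E),
      G.Cubic → ThreeEdgeConnected G → GirthAtLeastFive G →
        ∃ φ₂ φ₄ : E → ℤ, G.IsHalfFlowPair φ₂ φ₄) := by
  constructor
  · intro H V E _ _ _ _ G _ h3 _
    apply H V E G
    rw [bridgeless_iff]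
    intro X e he
    have h1 : X.Nonempty := by
      rw [Finset.nonempty_iff_ne_empty]
      rintro rfl
      have : e ∈ G.cut ∅ := by rw [he]; simp
      rw [mem_cut] at this
      simp at this
    have h2 : X ≠ Finset.univ := by
      rintro rfl
      have : e ∈ G.cut Finset.univ := by rw [he]; simp
      rw [mem_cut] at this
      simp at this
    have h4 := h3 X h1 h2
    rw [he, Finset.card_singleton] at h4
    omega
  · intro H V E _ _ _ _ G hG
    rw [good_iff]
    obtain ⟨σ, h1, h2⟩ := exists_sigma G
    refine good_expand h1 (reduce ?_ _ (expand G σ) rfl (expand_bridgeless hG h2)
      (expand_deg G σ))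
    intro K hK
    obtain ⟨h3, h4, h5⟩ := core_spec hK
    exact good_core ((good_iff _).1 (H _ _ (core K) h3 h4 h5))

end Pool.Agent.Results.MP_e59a69_co.CubicGirthFive
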