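import Mathlib
import Pool.Agent.Q234.HG.Small

/-!
# `1/2`-flow-pairs: graphs with few vertices of odd degree

1. For every `m`, every bridgeless graph with at most `m` vertices of odd degree has a
   `1/2`-flow-pair if and only if every 3-edge-connected cubic graph of girth at least five with at
   most `m` vertices has one.
2. Every bridgeless graph with at most 18 vertices of odd degree has a `1/2`-flow-pair.

Proof.  A vertex with at least four edges (not loops) `e₀, e₁, e₂, e₃` is reduced by splitting off
`e₀` with one of `e₁, e₂, e₃`: if all three pairs create a bridge, then there are three cuts with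
three edges, and uncrossing them gives a cut with one edge.  The split edge gets the value of the new
edge.  All degrees keep their parity.  The reductions of graphs with degrees at most three to
3-edge-connected cubic graphs of girth at least five do not increase the number of vertices of odd
degree.  In a cubic graph of girth at least five with at most 18 vertices a 2-factor has at most two
odd circuits; some 2-factor meets all cuts with three edges (Edmonds' polytope), and the theorem
`OddnessTwo` of the starting files applies.
-/

set_option autoImplicit false

namespace Pool.Agent.Results.MP_e59a69_co.FewOddVertices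
open Finset Pool.Agent.H160R2.HF Pool.Agent.Q234.HF Pool.Agent.Q234.HG

/-- For every `m`, all bridgeless graphs with at most `m` vertices of odd degree have
`1/2`-flow-pairs if and only if all 3-edge-connected cubic graphs of girth at least five with at
most `m` vertices have them; for `m = 18` this is the case. -/
theorem result :
    (∀ m : ℕ,
      (∀ (V E : Type) [Fintype V] [Fintype E] [DecidableEq V] [DecidableEq E] (G : OrGraph V E),
        G.Bridgeless → (univ.filter fun v => Odd (G.deg univ v)).card ≤ m →
          ∃ φ₂ φ₄ : E → ℤ, G.IsHalfFlowPair φ₂ φ₄) ↔
      (∀ (V E : Type) [Fintype V] [Fintype E] [DecidableEq V] [DecidableEq E] (G : OrGraph V E),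
        G.Cubic → ThreeEdgeConnected G → GirthAtLeastFive G → Fintype.card V ≤ m →
          ∃ φ₂ φ₄ : E → ℤ, G.IsHalfFlowPair φ₂ φ₄)) ∧
    (∀ (V E : Type) [Fintype V] [Fintype E] [DecidableEq V] [DecidableEq E] (G : OrGraph V E),
      G.Bridgeless → (univ.filter fun v => Odd (G.deg univ v)).card ≤ 18 →
        ∃ φ₂ φ₄ : E → ℤ, G.IsHalfFlowPair φ₂ φ₄) := by
  refine ⟨fun m => ⟨?_, ?_⟩, ?_⟩
  · intro H V E _ _ _ _ G hc h3 _ hm
    refine H V E G (three_bridgeless h3) ((card_le_univ _).trans hm)
  · intro H V E _ _ _ _ G hG hm
    exact red m H G hG hm
  · intro V E _ _ _ _ G hG hm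
    refine red 18 ?_ G hG hm
    intro V E _ _ _ _ G hc h3 hg hn
    exact small G hc (three_bridgeless h3) hg hn

end Pool.Agent.Results.MP_e59a69_co.FewOddVertices
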