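import Pool.Agent.Q295.RG.Fl
import Pool.Agent.Q295.RG.Red

/-!
# Flow problems on cubic graphs: reduction to nearly bipartite graphs of large girth
-/

set_option autoImplicit false

namespace Pool.Agent.Results.MP_e59a69_co.NearlyBipartiteCubic

open Finset Pool.Agent.H160R2.HF Pool.Agent.Q234.HF Pool.Agent.Q295.RG

/-- Any two different edges of `F` are at distance at least `g`: no walk with fewer than `g` edges
leads from an end of the first to an end of the second. -/
def Far (g : ℕ) {V E : Type} (O : OrGraph V E) (F : Finset E) : Prop :=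
  ∀ e ∈ F, ∀ f ∈ F, e ≠ f → ∀ n < g, ∀ p : ℕ → V, (p 0 = O.t e ∨ p 0 = O.h e) →
    (p n = O.t f ∨ p n = O.h f) →
    ¬ ∀ i < n, ∃ a, (O.t a = p i ∧ O.h a = p (i + 1)) ∨ (O.t a = p (i + 1) ∧ O.h a = p i)

/-- 3-edge-connected cubic graphs in which every nonempty set of edges with all degrees even has at
least `g` edges, and which become bipartite when at most `ε |V|` edges are deleted, any two of them
at distance at least `g`. -/
structure Nice (g : ℕ) (ε : ℝ) {V E : Type} [Fintype V] [Fintype E] [DecidableEq V]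
    [DecidableEq E] (O : OrGraph V E) : Prop where
  cubic : O.Cubic
  conn : ThreeEdgeConnected O
  girth : ∀ C : Finset E, C.Nonempty → (∀ v, Even (O.deg C v)) → g ≤ C.card
  nearly : ∃ F : Finset E, (F.card : ℝ) ≤ ε * Fintype.card V ∧ Far g O F ∧
    ∃ B : Finset V, ∀ e, e ∉ F → (O.t e ∈ B ↔ O.h e ∉ B)

theorem main (g : ℕ) (ε : ℝ) (hε : 0 < ε) (V E : Type) [Fintype V] [Fintype E] [DecidableEq V]
    [DecidableEq E] (O : OrGraph V E) (hc : O.Cubic) (h3 : ThreeEdgeConnected O) :
    ∃ (V' E' : Type) (_ : Fintype V') (_ : Fintype E') (_ : DecidableEq V') (_ : DecidableEq E')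
      (O' : OrGraph V' E'), Nice g ε O' ∧
        ∀ (A : Type) [AddCommGroup A] (S : Set A), (∀ a ∈ S, -a ∈ S) →
          (HasFlow O' A S ↔ HasFlow O A S) := by
  classical
  have hr := rgraph_of O hc h3
  have hl := loopless_of O hc h3
  obtain ⟨N⟩ := exists_num hr.regular (by omega)
  obtain ⟨Λ, _, hΛ, G, hcard⟩ := exists_gad 3 (2 * g + 3) (⌈(Nat.card E : ℝ) / ε⌉₊ + 1) (by omega)
  haveI : Fintype Λ := Fintype.ofFinite Λ
  haveI : Fintype (E2 V E G) := Fintype.ofFinite _
  refine ⟨V × {x : Λ // x ≠ 1}, E2 V E G, inferInstance, inferInstance, inferInstance,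
    inferInstance, og2 N G, ⟨cubic2 N G hl, three_conn N G (by omega) hc h3, ?_,
      univ.image Sum.inl, ?_, ?_, univ.filter (fun p => G.par p.2.1 = false), ?_⟩, ?_⟩
  · intro C h1 h2
    have := even_sets N G (r := g) (by omega) hl C h1 h2
    omega
  · rw [Finset.card_image_of_injective _ Sum.inl_injective, Finset.card_univ,
      ← Nat.card_eq_fintype_card, ← Nat.card_eq_fintype_card]
    by_cases hV : IsEmpty V
    · have hE : IsEmpty E := ⟨fun e => hV.elim (O.t e)⟩
      rw [Nat.card_of_isEmpty]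
      simp only [Nat.cast_zero]
      positivity
    · rw [not_isEmpty_iff] at hV
      have h1 : 1 ≤ Nat.card V := Nat.card_pos
      have h2 : Nat.card {x : Λ // x ≠ 1} + 1 = Nat.card Λ := by
        have h3 := Set.ncard_add_ncard_compl ({1} : Set Λ)
        rw [Set.ncard_singleton] at h3
        have h4 : Nat.card {x : Λ // x ≠ 1} = ({1}ᶜ : Set Λ).ncard := rfl
        omega
      have h3 : ⌈(Nat.card E : ℝ) / ε⌉₊ ≤ Nat.card {x : Λ // x ≠ 1} := by omega
      have h4 : (Nat.card E : ℝ) / ε ≤ Nat.card {x : Λ // x ≠ 1} :=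
        (Nat.le_ceil _).trans (by exact_mod_cast h3)
      have h5 : Nat.card {x : Λ // x ≠ 1} ≤ Nat.card (V × {x : Λ // x ≠ 1}) := by
        rw [Nat.card_prod]
        exact Nat.le_mul_of_pos_left _ h1
      have h6 : (Nat.card E : ℝ) / ε ≤ Nat.card (V × {x : Λ // x ≠ 1}) :=
        h4.trans (by exact_mod_cast h5)
      rw [div_le_iff₀ hε] at h6
      linarith
  · intro e' he' f' hf' hef n hn p h0 h1 h2
    rw [Finset.mem_image] at he' hf'
    obtain ⟨e, -, rfl⟩ := he'
    obtain ⟨f, -, rfl⟩ := hf'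
    refine far2 N G n (by omega) e f (fun hh => hef (by rw [hh])) p ?_ ?_ ?_
    · rw [← ed_og2, mem_ed]
      rcases h0 with h0 | h0
      · exact Or.inl h0.symm
      · exact Or.inr h0.symm
    · rw [← ed_og2, mem_ed]
      rcases h1 with h1 | h1
      · exact Or.inl h1.symm
      · exact Or.inr h1.symm
    · intro i hi
      obtain ⟨a, ha⟩ := h2 i hi
      refine ⟨a, ?_⟩
      rw [← ed_og2]
      rcases ha with ⟨h3, h4⟩ | ⟨h3, h4⟩
      · rw [ed, h3, h4]
      · rw [ed, h3, h4, Sym2.eq_swap]
  · intro f hf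
    rcases f with e | ⟨v, y, i⟩
    · exact absurd (Finset.mem_image_of_mem _ (Finset.mem_univ e)) hf
    · rw [Finset.mem_filter, Finset.mem_filter]
      constructor
      · rintro - ⟨-, h2⟩
        have h3 : G.par (y.1 * G.t i) = false := h2
        rw [G.par_nx] at h3
        exact absurd h3 (by decide)
      · intro _
        exact ⟨Finset.mem_univ _, y.2.1⟩
  · intro A _ S hS
    exact hasFlow2 N G hl S hS

/-- (1) For every `g` and `ε > 0`, every 3-edge-connected cubic graph `O` has a partner `O'` in the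
class `Nice g ε` such that for every abelian group `A` and every `S ⊆ A` with `-S ⊆ S` there is a
flow with values in `S` on `O'` if and only if there is one on `O`. (2) Every bridgeless graph has a
`1/2`-flow-pair if and only if every member of `Nice g ε` has one. -/
theorem result (g : ℕ) (ε : ℝ) (hε : 0 < ε) :
    (∀ (V E : Type) [Fintype V] [Fintype E] [DecidableEq V] [DecidableEq E] (O : OrGraph V E),
      O.Cubic → ThreeEdgeConnected O →
      ∃ (V' E' : Type) (_ : Fintype V') (_ : Fintype E') (_ : DecidableEq V')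
        (_ : DecidableEq E') (O' : OrGraph V' E'), Nice g ε O' ∧
          ∀ (A : Type) [AddCommGroup A] (S : Set A), (∀ a ∈ S, -a ∈ S) →
            (HasFlow O' A S ↔ HasFlow O A S)) ∧
    ((∀ (V E : Type) [Fintype V] [Fintype E] [DecidableEq V] [DecidableEq E] (O : OrGraph V E),
      O.Bridgeless → ∃ φ₂ φ₄ : E → ℤ, O.IsHalfFlowPair φ₂ φ₄) ↔
    (∀ (V E : Type) [Fintype V] [Fintype E] [DecidableEq V] [DecidableEq E] (O : OrGraph V E),
      Nice g ε O → ∃ φ₂ φ₄ : E → ℤ, O.IsHalfFlowPair φ₂ φ₄)) := by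
  refine ⟨fun V E _ _ _ _ O hc h3 => main g ε hε V E O hc h3, ?_, ?_⟩
  · intro H V E _ _ _ _ O hO
    apply H V E O
    rw [bridgeless_iff]
    intro X e he
    have h1 : X.Nonempty := by
      rw [Finset.nonempty_iff_ne_empty]
      rintro rfl
      have : e ∈ O.cut ∅ := by rw [he]; simp
      rw [mem_cut] at this
      simp at this
    have h2 : X ≠ Finset.univ := by
      rintro rfl
      have : e ∈ O.cut Finset.univ := by rw [he]; simp
      rw [mem_cut] at this
      simp at this
    have h4 := hO.conn X h1 h2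
    rw [he, Finset.card_singleton] at h4
    omega
  · intro H
    refine reduction234 ?_
    intro V E _ _ _ _ O hc h3
    obtain ⟨V', E', _, _, _, _, O', h5, h6⟩ := main g ε hε V E O hc h3
    have h7 := H V' E' O' h5
    rw [pair_iff'] at h7
    rw [pair_iff']
    exact (h6 (ℤ × ℤ) Adm adm_neg).mp h7

end Pool.Agent.Results.MP_e59a69_co.NearlyBipartiteCubic
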