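import Mathlib
import Pool.Agent.Q253.OC.Main

set_option autoImplicit false

/-!
# `1/2`-flow-pairs and transversals of the odd circuits (MP_e59a69_co)

Let `G` be a bridgeless cubic multigraph.  `OrGraph`, `Cubic`, `Bridgeless`, `IsTwoFactor`, `cut`,
`deg`, `sub`, `HasCycleIn` and `IsHalfFlowPair` are the definitions of the starting files.

In particular (`t = 1`): if there are five edges, or five vertices, which meet all odd circuits of
`G` (so that deleting them leaves a bipartite graph), then `G` has a `1/2`-flow-pair, and hence a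
nowhere-zero 5-flow.  There is no condition on the connectivity and no bound for the order.

Proof.  The vector with all entries `1 / 3` lies in Edmonds' perfect matching polytope.  So for all
nonnegative weights of the edges there is a 2-factor `F` which meets every 3-edge-cut and has at
most `2 / 3` of the total weight.  If every odd circuit has weight at least one and the total weight
is less than `3 t + 3`, then `F` has less than `2 t + 2` odd circuits, hence at most `2 t`, and the
`1/2`-flow-pair comes from the theorems `OddnessTwo` and `CutPairing` of the starting files.  The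
weights of circuits are those of the starting file `FewOddCircuits`.
-/

namespace Pool.Agent.Results.MP_e59a69_co.OddCircuitTransversals

open Finset Pool.Agent.H160R2.HF

variable {V E : Type} [Fintype V] [Fintype E] [DecidableEq V] [DecidableEq E]

/-- `C` is the edge set of a circuit with the vertex set `S` (all degrees in `C` are two at the
vertices of `S` and zero elsewhere, and `C` connects the vertices of `S`), the number of the
vertices is odd, and `C` is contained in some 2-factor of `G`. -/
def IsOddCircuit (G : OrGraph V E) (S : Finset V) (C : Finset E) : Prop :=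
  Odd S.card ∧ (∀ v, G.deg C v = if v ∈ S then 2 else 0) ∧
    (∀ u ∈ S, ∀ v ∈ S, (G.sub C).Reachable u v) ∧ ∃ F, G.IsTwoFactor F ∧ C ⊆ F

/-- The vertex sets of the odd circuits of `G` (contained in 2-factors). -/
noncomputable def oddCircuitSets (G : OrGraph V E) : Finset (Finset V) := by
  classical
  exact univ.filter fun S => ∃ C, IsOddCircuit G S C

/-- The vertex sets of the odd circuits (contained in 2-factors) which have no edge in `B`. -/
noncomputable def avoiding (G : OrGraph V E) (B : Finset E) : Finset (Finset V) := by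
  classical
  exact univ.filter fun S => ∃ C, IsOddCircuit G S C ∧ Disjoint C B

/-- Let `G` be a bridgeless cubic multigraph, and let `t = 1`, or let every edge cut of `G` with
circuits on both sides have at least `5 t - 1` edges.  In each of the following cases `G` has a
`1/2`-flow-pair.

1. There are nonnegative weights `w` of the edges and `y` of the vertex sets such that
   `w(C) + y(S) ≥ 1` for every odd circuit `C` with the vertex set `S`, and such that
   `2/3 w(E) + ∑ y(S) (d(S) - 3) / (3 (d(S) - 1)) < 2 t + 2`, where the sum is over the vertex sets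
   `S` of odd circuits and `d(S)` is the number of edges leaving `S`.
2. All odd circuits have weight at least one for some nonnegative weights of the edges with total
   weight less than `3 t + 3`.
3. There is a set `B` of at most `3 t + 2` edges such that at most `6 t + 6 - 2 |B|` vertex sets
   belong to odd circuits without edges in `B`.
4. There are at most `3 t + 2` edges such that the graph of the other edges is bipartite.
5. There are at most `3 t + 2` vertices such that the graph of the other vertices is bipartite. -/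
theorem result (G : OrGraph V E) (hc : G.Cubic) (hb : G.Bridgeless) (t : ℕ)
    (ht : t = 1 ∨ ∀ X : Finset V, G.HasCycleIn X → G.HasCycleIn Xᶜ → 5 * t - 1 ≤ (G.cut X).card) :
    ((∃ (w : E → ℝ) (y : Finset V → ℝ), (∀ e, 0 ≤ w e) ∧ (∀ S, 0 ≤ y S) ∧
        (∀ S C, IsOddCircuit G S C → 1 ≤ ∑ e ∈ C, w e + y S) ∧
        2 / 3 * ∑ e, w e + ∑ S ∈ oddCircuitSets G,
          y S * ((((G.cut S).card : ℝ) - 3) / (3 * ((G.cut S).card - 1))) < 2 * t + 2) →
      ∃ φ₂ φ₄ : E → ℤ, G.IsHalfFlowPair φ₂ φ₄) ∧
    ((∃ w : E → ℝ, (∀ e, 0 ≤ w e) ∧ (∀ S C, IsOddCircuit G S C → 1 ≤ ∑ e ∈ C, w e) ∧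
        ∑ e, w e < 3 * t + 3) →
      ∃ φ₂ φ₄ : E → ℤ, G.IsHalfFlowPair φ₂ φ₄) ∧
    ((∃ B : Finset E, B.card ≤ 3 * t + 2 ∧ 2 * B.card + (avoiding G B).card ≤ 6 * t + 6) →
      ∃ φ₂ φ₄ : E → ℤ, G.IsHalfFlowPair φ₂ φ₄) ∧
    ((∃ (B : Finset E) (s : V → Bool), B.card ≤ 3 * t + 2 ∧
        ∀ e, e ∉ B → s (G.t e) ≠ s (G.h e)) →
      ∃ φ₂ φ₄ : E → ℤ, G.IsHalfFlowPair φ₂ φ₄) ∧
    ((∃ (T : Finset V) (s : V → Bool), T.card ≤ 3 * t + 2 ∧
        ∀ e, G.t e ∉ T → G.h e ∉ T → s (G.t e) ≠ s (G.h e)) →
      ∃ φ₂ φ₄ : E → ℤ, G.IsHalfFlowPair φ₂ φ₄) := by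
  refine ⟨?_, ?_, ?_, ?_, ?_⟩
  · rintro ⟨w, y, hw, hy, h1, h2⟩
    exact Pool.Agent.Q253.OC.main G hc hb t ht w hw y hy h1 h2
  · rintro ⟨w, hw, h1, h2⟩
    refine Pool.Agent.Q253.OC.main G hc hb t ht w hw (fun _ => 0) (fun _ => le_rfl)
      (fun S C h => ?_) ?_
    · rw [add_zero]
      exact h1 S C h
    · simp only [zero_mul, Finset.sum_const_zero, add_zero]
      linarith
  · rintro ⟨B, hB, hN⟩
    exact Pool.Agent.Q253.OC.edges G hc hb t ht B hB hN
  · rintro ⟨B, s, hB, hs⟩
    refine Pool.Agent.Q253.OC.edges G hc hb t ht B hB ?_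
    have h : Pool.Agent.Q253.OC.avoiding G B = ∅ := by
      rw [Finset.eq_empty_iff_forall_notMem]
      intro S hS
      obtain ⟨C, hC, hd⟩ := Pool.Agent.Q253.OC.mem_avoiding.1 hS
      exact Pool.Agent.Q253.OC.no_odd G hC s fun e he => hs e (Finset.disjoint_left.1 hd he)
    rw [h, Finset.card_empty]
    omega
  · rintro ⟨T, s, hT, hs⟩
    exact Pool.Agent.Q253.OC.vertices G hc hb t ht T hT s hs

end Pool.Agent.Results.MP_e59a69_co.OddCircuitTransversals
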